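import Pool.Agent.KS6_43.FP.Tens

/-!
# Base change of resolutions of torsion-free modules
-/

set_option autoImplicit false

universe u

namespace Pool.Agent.KS6_43.FP

open Pool.Agent.Results.MP_682377_al.WeakRingsOfLargeFPD Function TensorProduct IsLocalRing
open CategoryTheory

variable {B : Type u} [CommRing B] [IsLocalRing B]

/-- Torsion-free modules. -/
def TF (B : Type u) [CommRing B] (N : Type u) [AddCommGroup N] [Module B N] : Prop :=
  ∀ a : B, a ≠ 0 → ∀ n : N, a • n = 0 → n = 0

theorem tf_proj [IsDomain B] (P : Type u) [AddCommGroup P] [Module B P] [Module.Projective B P] :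
    TF B P := by
  intro a ha p hp
  obtain ⟨s, hs⟩ := Module.projective_def'.1 (inferInstance : Module.Projective B P)
  have h1 : a • s p = 0 := by rw [← map_smul, hp, map_zero]
  have h2 : s p = 0 := by
    ext i
    have := DFunLike.congr_fun h1 i
    simpa [ha] using this
  have := LinearMap.congr_fun hs p
  rw [LinearMap.comp_apply, h2, map_zero] at this
  exact this.symm

theorem tf_sub {N : Type u} [AddCommGroup N] [Module B N] (h : TF B N) (K : Submodule B N) :
    TF B K := fun a ha n hn => Subtype.ext (h a ha n (congrArg Subtype.val hn))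

/-- The kernel of the base change of a surjection onto a torsion-free module. -/
noncomputable def kerEquiv {P N : Type u} [AddCommGroup P] [Module B P] [AddCommGroup N]
    [Module B N] (f : P →ₗ[B] N) (hf : Surjective f) (hN : TF B N) :
    ((RR B) ⊗[B] (LinearMap.ker f)) ≃ₗ[RR B] LinearMap.ker (f.baseChange (RR B)) := by
  have hinj : Injective ((LinearMap.ker f).subtype.baseChange (RR B)) :=
    inj_RR (LinearMap.ker f).subtype (Submodule.injective_subtype _) (by
      intro a ha n hn
      rw [Submodule.range_subtype, LinearMap.mem_ker] at hn ⊢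
      rw [map_smul] at hn
      exact hN a ha _ hn)
  refine (LinearEquiv.ofInjective _ hinj).trans (LinearEquiv.ofEq _ _ ?_)
  have hex : Exact (LinearMap.lTensor (RR B) (LinearMap.ker f).subtype)
      (LinearMap.lTensor (RR B) f) :=
    lTensor_exact (RR B) (LinearMap.exact_subtype_ker_map f) hf
  ext x
  rw [LinearMap.mem_ker, LinearMap.mem_range]
  exact (hex x).symm

theorem baseChange_surj {P N : Type u} [AddCommGroup P] [Module B P] [AddCommGroup N]
    [Module B N] (f : P →ₗ[B] N) (hf : Surjective f) : Surjective (f.baseChange (RR B)) :=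
  LinearMap.lTensor_surjective (RR B) hf

theorem fr_baseChange [IsDomain B] : ∀ (m : ℕ) (N : Type u) [AddCommGroup N] [Module B N],
    TF B N → HasFiniteRes B m N → HasFiniteRes (RR B) m ((RR B) ⊗[B] N) := by
  intro m
  induction m with
  | zero =>
    rintro N _ _ - ⟨h1, h2⟩
    exact ⟨inferInstance, inferInstance⟩
  | succ m ih =>
    rintro N _ _ hN ⟨P, _, _, f, h1, h2, h3, h4⟩
    refine ⟨(RR B) ⊗[B] P, inferInstance, inferInstance, f.baseChange (RR B), inferInstance,
      inferInstance, baseChange_surj f h3, ?_⟩
    exact fr_equiv m (kerEquiv f h3 hN) (ih _ (tf_sub (tf_proj P) _) h4)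

/-- The first component. -/
def fstL : RR B →ₗ[B] B := (LinearMap.fst B B (EE B)) ∘ₗ (prodEquiv (B := B)).toLinearMap

theorem fstL_apply (r : RR B) : fstL r = r.fst := rfl

/-- The map `r ⊗ n ↦ r.fst • n`. -/
noncomputable def qmap (N : Type u) [AddCommGroup N] [Module B N] : (RR B) ⊗[B] N →ₗ[B] N :=
  (TensorProduct.lid B N).toLinearMap ∘ₗ (LinearMap.rTensor N (fstL (B := B)))

theorem qmap_tmul {N : Type u} [AddCommGroup N] [Module B N] (r : RR B) (n : N) :
    qmap N (r ⊗ₜ[B] n) = r.fst • n := by
  simp [qmap, fstL_apply]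

theorem qmap_smul {N : Type u} [AddCommGroup N] [Module B N] (r : RR B) (t : (RR B) ⊗[B] N) :
    qmap N (r • t) = r.fst • qmap N t := by
  induction t with
  | zero => simp
  | tmul m n =>
    rw [TensorProduct.smul_tmul', qmap_tmul, qmap_tmul, smul_eq_mul, TrivSqZeroExt.fst_mul,
      mul_smul]
  | add x y hx hy =>
    rw [TensorProduct.smul_add, map_add, map_add, hx, hy, smul_add]

theorem proj_of_baseChange (N : Type u) [AddCommGroup N] [Module B N]
    (h : Module.Projective (RR B) ((RR B) ⊗[B] N)) : Module.Projective B N := by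
  obtain ⟨s, hs⟩ := Module.projective_def'.1 h
  let i : N →ₗ[B] ((RR B) ⊗[B] N →₀ B) :=
    { toFun := fun n => (s (1 ⊗ₜ[B] n)).mapRange fstL (map_zero _)
      map_add' := fun x y => by
        rw [TensorProduct.tmul_add, map_add, Finsupp.mapRange_add (by exact fun x y => map_add _ x y)]
      map_smul' := fun b x => by
        have e : (1 : RR B) ⊗ₜ[B] (b • x) = (algebraMap B (RR B) b) • ((1 : RR B) ⊗ₜ[B] x) := by
          rw [TensorProduct.tmul_smul, algebraMap_smul]
        rw [e, map_smul]
        ext t
        simp [fstL_apply, TrivSqZeroExt.algebraMap_eq_inl] }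
  let r : ((RR B) ⊗[B] N →₀ B) →ₗ[B] N := Finsupp.linearCombination B (fun t => qmap N t)
  have key : ∀ v : ((RR B) ⊗[B] N →₀ RR B), r (v.mapRange fstL (map_zero _)) =
      qmap N (Finsupp.linearCombination (RR B) id v) := by
    intro v
    induction v using Finsupp.induction_linear with
    | zero => simp
    | add x y hx hy =>
      rw [Finsupp.mapRange_add (by exact fun x y => map_add _ x y), map_add, map_add, map_add,
        hx, hy]
    | single t c =>
      rw [Finsupp.mapRange_single, Finsupp.linearCombination_single, Finsupp.linearCombination_single,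
        id, qmap_smul, fstL_apply]
  refine Module.Projective.of_split i r ?_
  ext n
  have h1 : r (i n) = qmap N (Finsupp.linearCombination (RR B) id (s (1 ⊗ₜ[B] n))) := key _
  have h2 : Finsupp.linearCombination (RR B) id (s ((1 : RR B) ⊗ₜ[B] n)) = 1 ⊗ₜ[B] n :=
    LinearMap.congr_fun hs _
  rw [LinearMap.comp_apply, h1, h2, qmap_tmul]
  simp

/-- One step of dimension shifting. -/
theorem step {R : Type u} [CommRing R] {M N : Type u} [AddCommGroup M] [Module R M]
    [AddCommGroup N] [Module R N] [Module.Projective R M] (f : M →ₗ[R] N) (hf : Surjective f)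
    (m : ℕ) : HasProjectiveDimensionLT (ModuleCat.of R N) (m + 2) ↔
      HasProjectiveDimensionLT (ModuleCat.of R (LinearMap.ker f)) (m + 1) := by
  have p1 : Projective (ModuleCat.of R M) := inferInstance
  exact (LinearMap.shortExact_shortComplexKer hf).hasProjectiveDimensionLT_X₃_iff m p1

theorem pd_equiv {R : Type u} [CommRing R] {M N : Type u} [AddCommGroup M] [Module R M]
    [AddCommGroup N] [Module R N] (e : M ≃ₗ[R] N) (n : ℕ)
    (h : HasProjectiveDimensionLT (ModuleCat.of R M) n) :
    HasProjectiveDimensionLT (ModuleCat.of R N) n :=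
  hasProjectiveDimensionLT_of_iso e.toModuleIso n

theorem shift {R : Type u} [CommRing R] {M N K : Type u} [AddCommGroup M] [Module R M]
    [AddCommGroup N] [Module R N] [AddCommGroup K] [Module R K] [Module.Projective R M]
    (f : M →ₗ[R] N) (hf : Surjective f) (e : K ≃ₗ[R] LinearMap.ker f) (m : ℕ)
    (h : HasProjectiveDimensionLT (ModuleCat.of R N) (m + 2)) :
    HasProjectiveDimensionLT (ModuleCat.of R K) (m + 1) :=
  pd_equiv e.symm (m + 1) ((step f hf m).1 h)

/-- The projective dimension does not drop. -/
theorem pd_baseChange [IsDomain B] : ∀ (m : ℕ) (N : Type u) [AddCommGroup N] [Module B N],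
    TF B N → HasProjectiveDimensionLT (ModuleCat.of (RR B) ((RR B) ⊗[B] N)) (m + 1) →
    HasProjectiveDimensionLT (ModuleCat.of B N) (m + 1) := by
  intro m
  induction m with
  | zero =>
    intro N _ _ _ h
    rw [zero_add, ← projective_iff_hasProjectiveDimensionLT_one, ← IsProjective.iff_projective] at h ⊢
    exact proj_of_baseChange N h
  | succ m ih =>
    intro N _ _ hN h
    have hs : Surjective (Finsupp.linearCombination B (id : N → N)) :=
      fun n => ⟨Finsupp.single n 1, by simp⟩
    have h1 := step (Finsupp.linearCombination B (id : N → N)) hs m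
    refine h1.2 (ih _ (tf_sub (tf_proj _) _) ?_)
    exact shift (R := RR B) (M := (RR B) ⊗[B] (N →₀ B)) (N := (RR B) ⊗[B] N)
      (K := (RR B) ⊗[B] LinearMap.ker (Finsupp.linearCombination B (id : N → N)))
      ((Finsupp.linearCombination B (id : N → N)).baseChange (RR B)) (baseChange_surj _ hs)
      (kerEquiv (Finsupp.linearCombination B (id : N → N)) hs hN) m h

end Pool.Agent.KS6_43.FP
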