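import Pool.Agent.KS6_43.FP.BC

/-!
# Regular sequences in (not necessarily Noetherian) local rings
-/

set_option autoImplicit false

universe u

namespace Pool.Agent.KS6_43.FP

open Pool.Agent.Results.MP_682377_al.WeakRingsOfLargeFPD Function IsLocalRing
open CategoryTheory Abelian RingTheory.Sequence

variable {B : Type u} [CommRing B] [IsLocalRing B]

/-- The residue field as an object. -/
noncomputable abbrev kk (B : Type u) [CommRing B] [IsLocalRing B] : ModuleCat.{u} B :=
  ModuleCat.of B (ResidueField B)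

theorem smul_ext_eq_zero (M : ModuleCat.{u} B) (i : ℕ) (x : B) (hx : x ∈ maximalIdeal B)
    (z : Ext M (kk B) i) : x • z = 0 := by
  have h : x • 𝟙 (kk B) = 0 := by
    ext y
    change x • y = 0
    rw [Algebra.smul_def, ResidueField.algebraMap_eq, (residue_eq_zero_iff x).2 hx, zero_mul]
  have h1 : z.comp (Ext.mk₀ (x • 𝟙 (kk B))) (add_zero i) = 0 := by
    rw [h, Ext.mk₀_zero, Ext.comp_zero]
  rw [Ext.mk₀_smul, Ext.comp_smul, Ext.comp_mk₀_id] at h1
  exact h1

theorem ext_step (M : ModuleCat.{u} B) (x : B) (reg : IsSMulRegular M x)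
    (hx : x ∈ maximalIdeal B) (i : ℕ) (h : Nontrivial (Ext M (kk B) i)) :
    Nontrivial (Ext (ModuleCat.of B (QuotSMulTop x M)) (kk B) (i + 1)) := by
  by_contra hn
  rw [not_nontrivial_iff_subsingleton] at hn
  have hS : (M.smulShortComplex x).ShortExact := reg.smulShortComplex_shortExact
  obtain ⟨z, hz⟩ := exists_ne (0 : Ext M (kk B) i)
  have hsub : Subsingleton (Ext (M.smulShortComplex x).X₃ (kk B) (i + 1)) := hn
  obtain ⟨y, hy⟩ := Ext.contravariant_sequence_exact₁ hS (kk B) (n₁ := i + 1) z (add_comm 1 i)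
    (hsub.elim _ _)
  apply hz
  rw [← hy]
  have h1 : (Ext.mk₀ (x • 𝟙 M)).comp y (zero_add i) = 0 := by
    have e : (Ext.mk₀ (x • 𝟙 M)).comp y (zero_add i) = x • (y : Ext M (kk B) i) := by
      rw [Ext.mk₀_smul, Ext.smul_comp, Ext.mk₀_id_comp]
      rfl
    rw [e]
    exact smul_ext_eq_zero M i x hx y
  exact h1

theorem ext_list : ∀ (rs : List B) (M : ModuleCat.{u} B) (_ : IsWeaklyRegular M rs)
    (_ : ∀ r ∈ rs, r ∈ maximalIdeal B) (i : ℕ) (_ : Nontrivial (Ext M (kk B) i)),
    Nontrivial (Ext (ModuleCat.of B (M ⧸ Ideal.ofList rs • (⊤ : Submodule B M))) (kk B)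
      (i + rs.length)) := by
  intro rs
  induction rs with
  | nil =>
    intro M _ _ i h
    rw [Ideal.ofList_nil, Submodule.bot_smul]
    have e : ModuleCat.of B (M ⧸ (⊥ : Submodule B M)) ≅ M :=
      (Submodule.quotEquivOfEqBot ⊥ rfl).toModuleIso
    obtain ⟨z, hz⟩ := exists_ne (0 : Ext M (kk B) i)
    refine ⟨(Ext.mk₀ e.hom).comp z (zero_add i), 0, fun h => hz ?_⟩
    have := congrArg (fun y => (Ext.mk₀ e.inv).comp y (zero_add i)) h
    simpa using this
  | cons x rs ih =>
    intro M reg mem i h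
    simp only [List.mem_cons, forall_eq_or_imp] at mem
    rw [isWeaklyRegular_cons_iff] at reg
    have h1 := ih (ModuleCat.of B (QuotSMulTop x M)) reg.2 mem.2 (i + 1)
      (ext_step M x reg.1 mem.1 i h)
    let e : ModuleCat.of B (M ⧸ Ideal.ofList (x :: rs) • (⊤ : Submodule B M)) ≅
        ModuleCat.of B ((ModuleCat.of B (QuotSMulTop x M)) ⧸ Ideal.ofList rs •
          (⊤ : Submodule B (ModuleCat.of B (QuotSMulTop x M)))) :=
      (Submodule.quotOfListConsSMulTopEquivQuotSMulTopInner M x rs).toModuleIso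
    rw [List.length_cons, ← add_assoc, add_right_comm]
    obtain ⟨z, hz⟩ := exists_ne (0 : Ext (ModuleCat.of B ((ModuleCat.of B (QuotSMulTop x M)) ⧸
      Ideal.ofList rs • (⊤ : Submodule B (ModuleCat.of B (QuotSMulTop x M))))) (kk B)
        (i + 1 + rs.length))
    refine ⟨(Ext.mk₀ e.hom).comp z (zero_add _), 0, fun h => hz ?_⟩
    have := congrArg (fun y => (Ext.mk₀ e.inv).comp y (zero_add _)) h
    simpa using this

end Pool.Agent.KS6_43.FP
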