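import Mathlib
import Pool.Graph.R_pool_sql_team_seeded_64922ed1.Results.MP_682377_al.WeakRingsOfLargeFPD

/-!
# Modules with a finite resolution by finitely generated projectives

Extensions and mapping cones.
-/

set_option autoImplicit false

universe u

namespace Pool.Agent.KS6_43.FP

open Pool.Agent.Results.MP_682377_al.WeakRingsOfLargeFPD Function

variable {R : Type u} [CommRing R]

theorem fr_equiv : ∀ (m : ℕ) {M N : Type u} [AddCommGroup M] [Module R M] [AddCommGroup N]
    [Module R N] (_ : M ≃ₗ[R] N), HasFiniteRes R m M → HasFiniteRes R m N := by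
  intro m
  cases m with
  | zero =>
    rintro M N _ _ _ _ e ⟨h1, h2⟩
    exact ⟨Module.Finite.equiv e, Module.Projective.of_equiv e⟩
  | succ m =>
    rintro M N _ _ _ _ e ⟨P, _, _, f, h1, h2, h3, h4⟩
    refine ⟨P, inferInstance, inferInstance, e.toLinearMap ∘ₗ f, h1, h2, e.surjective.comp h3, ?_⟩
    have : LinearMap.ker (e.toLinearMap ∘ₗ f) = LinearMap.ker f := by
      rw [LinearMap.ker_comp_of_ker_eq_bot _ (LinearEquiv.ker e)]
    rw [this]
    exact h4

theorem fr_mono : ∀ (m : ℕ) {M : Type u} [AddCommGroup M] [Module R M],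
    HasFiniteRes R m M → HasFiniteRes R (m + 1) M := by
  intro m
  induction m with
  | zero =>
    rintro M _ _ ⟨h1, h2⟩
    refine ⟨M, inferInstance, inferInstance, LinearMap.id, h1, h2, surjective_id, ?_⟩
    have : Subsingleton (LinearMap.ker (LinearMap.id : M →ₗ[R] M)) := by
      rw [LinearMap.ker_id]
      infer_instance
    exact ⟨inferInstance, inferInstance⟩
  | succ m ih =>
    rintro M _ _ ⟨P, _, _, f, h1, h2, h3, h4⟩
    exact ⟨P, inferInstance, inferInstance, f, h1, h2, h3, ih h4⟩

theorem fr_le {m n : ℕ} (h : m ≤ n) {M : Type u} [AddCommGroup M] [Module R M]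
    (hM : HasFiniteRes R m M) : HasFiniteRes R n M := by
  induction n, h using Nat.le_induction with
  | base => exact hM
  | succ n _ ih => exact fr_mono n ih

/-- Extensions. -/
theorem fr_ext : ∀ (m : ℕ) {A C D : Type u} [AddCommGroup A] [Module R A] [AddCommGroup C]
    [Module R C] [AddCommGroup D] [Module R D] (i : A →ₗ[R] C) (p : C →ₗ[R] D),
    Injective i → Exact i p → Surjective p →
    HasFiniteRes R m A → HasFiniteRes R m D → HasFiniteRes R m C := by
  intro m
  induction m with
  | zero =>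
    rintro A C D _ _ _ _ _ _ i p hi hip hp ⟨h1, h2⟩ ⟨h3, h4⟩
    obtain ⟨s, hs⟩ := Module.projective_lifting_property p LinearMap.id hp
    have e : (A × D) ≃ₗ[R] C := by
      refine LinearEquiv.ofBijective (i.coprod s) ⟨?_, ?_⟩
      · rw [← LinearMap.ker_eq_bot, LinearMap.ker_eq_bot']
        rintro ⟨a, d⟩ h
        simp only [LinearMap.coprod_apply] at h
        have h5 : p (i a + s d) = 0 := by rw [h, map_zero]
        rw [map_add, hip.apply_apply_eq_zero, zero_add] at h5
        have h6 : d = 0 := by simpa using (LinearMap.congr_fun hs d).symm.trans h5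
        subst h6
        rw [map_zero, add_zero] at h
        have : a = 0 := hi (by rw [h, map_zero])
        rw [this]
        rfl
      · intro c
        have h5 : p (c - s (p c)) = 0 := by
          rw [map_sub, sub_eq_zero]
          exact (LinearMap.congr_fun hs (p c)).symm
        obtain ⟨a, ha⟩ := (hip _).1 h5
        exact ⟨(a, p c), by simp [ha]⟩
    exact ⟨Module.Finite.equiv e, Module.Projective.of_equiv e⟩
  | succ m ih =>
    rintro A C D _ _ _ _ _ _ i p hi hip hp ⟨P, _, _, f, h1, h2, h3, h4⟩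
      ⟨Q, _, _, g, h5, h6, h7, h8⟩
    obtain ⟨s, hs⟩ := Module.projective_lifting_property p g hp
    have hs' : ∀ q, p (s q) = g q := LinearMap.congr_fun hs
    have hcop : Surjective ((i ∘ₗ f).coprod s) := by
      intro c
      obtain ⟨q, hq⟩ := h7 (p c)
      have h9 : p (c - s q) = 0 := by rw [map_sub, hs', hq, sub_self]
      obtain ⟨a, ha⟩ := (hip _).1 h9
      obtain ⟨x, hx⟩ := h3 a
      exact ⟨(x, q), by simp [hx, ha]⟩
    refine ⟨P × Q, inferInstance, inferInstance, (i ∘ₗ f).coprod s, inferInstance, inferInstance,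
      hcop, ?_⟩
    let i' : LinearMap.ker f →ₗ[R] LinearMap.ker ((i ∘ₗ f).coprod s) :=
      ((LinearMap.inl R P Q) ∘ₗ (LinearMap.ker f).subtype).codRestrict _ (fun x => by
        have := x.2
        rw [LinearMap.mem_ker] at this
        simp [this])
    let p' : LinearMap.ker ((i ∘ₗ f).coprod s) →ₗ[R] LinearMap.ker g :=
      ((LinearMap.snd R P Q) ∘ₗ (LinearMap.ker ((i ∘ₗ f).coprod s)).subtype).codRestrict _
        (fun x => by
          have h := x.2
          rw [LinearMap.mem_ker, LinearMap.coprod_apply] at h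
          have h9 := congrArg p h
          simp only [map_add, LinearMap.comp_apply, hip.apply_apply_eq_zero, zero_add, map_zero,
            hs'] at h9
          simpa [LinearMap.mem_ker] using h9)
    have hi' : ∀ x, ((i' x : LinearMap.ker ((i ∘ₗ f).coprod s)) : P × Q) = ((x : P), 0) :=
      fun x => rfl
    have hp' : ∀ x, ((p' x : LinearMap.ker g) : Q) = (x : P × Q).2 := fun x => rfl
    refine ih i' p' ?_ ?_ ?_ h4 h8
    · intro x y hxy
      have := congrArg (fun z : LinearMap.ker ((i ∘ₗ f).coprod s) => (z : P × Q).1) hxy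
      exact Subtype.ext this
    · intro x
      constructor
      · intro hx
        have h9 : (x : P × Q).2 = 0 := by
          rw [← hp', hx]
          rfl
        have h10 := x.2
        rw [LinearMap.mem_ker, LinearMap.coprod_apply, h9, map_zero, add_zero] at h10
        have h11 : f (x : P × Q).1 = 0 := hi (by rw [map_zero]; exact h10)
        exact ⟨⟨(x : P × Q).1, h11⟩, Subtype.ext (Prod.ext rfl h9.symm)⟩
      · rintro ⟨y, rfl⟩
        exact Subtype.ext rfl
    · rintro ⟨q, hq⟩
      rw [LinearMap.mem_ker] at hq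
      have h9 : p (s q) = 0 := by rw [hs', hq]
      obtain ⟨a, ha⟩ := (hip _).1 h9
      obtain ⟨x, hx⟩ := h3 a
      refine ⟨⟨(-x, q), ?_⟩, Subtype.ext rfl⟩
      rw [LinearMap.mem_ker, LinearMap.coprod_apply]
      simp [hx, ha]

/-- Mapping cones: if `0 → X → Y → Z → 0` is exact and `X`, `Y` have finite resolutions, then so
does `Z`. -/
theorem fr_cone {m : ℕ} {X Y Z : Type u} [AddCommGroup X] [Module R X] [AddCommGroup Y]
    [Module R Y] [AddCommGroup Z] [Module R Z] (i : X →ₗ[R] Y) (p : Y →ₗ[R] Z)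
    (hi : Injective i) (hip : Exact i p) (hp : Surjective p)
    (hX : HasFiniteRes R m X) (hY : HasFiniteRes R m Y) : HasFiniteRes R (m + 1) Z := by
  obtain ⟨P, _, _, f, h1, h2, h3, h4⟩ := fr_mono m hY
  refine ⟨P, inferInstance, inferInstance, p ∘ₗ f, h1, h2, hp.comp h3, ?_⟩
  -- `0 → ker f → ker (p ∘ f) → X → 0`
  let j : LinearMap.ker f →ₗ[R] LinearMap.ker (p ∘ₗ f) :=
    Submodule.inclusion (LinearMap.ker_le_ker_comp f p)
  let eX : X ≃ₗ[R] LinearMap.range i := LinearEquiv.ofInjective i hi
  have hmem : ∀ x : LinearMap.ker (p ∘ₗ f), f x ∈ LinearMap.range i := by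
    intro x
    have := x.2
    rw [LinearMap.mem_ker, LinearMap.comp_apply] at this
    exact (hip _).1 this
  let q : LinearMap.ker (p ∘ₗ f) →ₗ[R] X :=
    eX.symm.toLinearMap ∘ₗ (f ∘ₗ (LinearMap.ker (p ∘ₗ f)).subtype).codRestrict _ hmem
  have hq : ∀ x, i (q x) = f x := by
    intro x
    have := congrArg Subtype.val (eX.apply_symm_apply ⟨f x, hmem x⟩)
    exact this
  refine fr_ext m j q ?_ ?_ ?_ h4 hX
  · exact Submodule.inclusion_injective _
  · intro x
    constructor
    · intro hx
      have h5 : f x = 0 := by rw [← hq, hx, map_zero]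
      exact ⟨⟨x, h5⟩, rfl⟩
    · rintro ⟨y, rfl⟩
      apply hi
      rw [hq, map_zero]
      exact y.2
  · intro x
    obtain ⟨y, hy⟩ := h3 (i x)
    refine ⟨⟨y, ?_⟩, hi ?_⟩
    · rw [LinearMap.mem_ker, LinearMap.comp_apply, hy, hip.apply_apply_eq_zero]
    · rw [hq]
      exact hy

theorem fr_self : HasFiniteRes R 0 R := ⟨inferInstance, inferInstance⟩

theorem fr_prod {m : ℕ} {A D : Type u} [AddCommGroup A] [Module R A] [AddCommGroup D] [Module R D]
    (hA : HasFiniteRes R m A) (hD : HasFiniteRes R m D) : HasFiniteRes R m (A × D) :=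
  fr_ext m (LinearMap.inl R A D) (LinearMap.snd R A D) LinearMap.inl_injective
    (fun x => ⟨fun h => ⟨x.1, Prod.ext rfl h.symm⟩, by rintro ⟨y, rfl⟩; rfl⟩)
    LinearMap.snd_surjective hA hD

end Pool.Agent.KS6_43.FP
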