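import Pool.Agent.KS6_43.FP.Seq

/-!
# A local domain with an infinite regular sequence
-/

set_option autoImplicit false

namespace Pool.Agent.KS6_43.FP

open Pool.Agent.Results.MP_682377_al.WeakRingsOfLargeFPD Function IsLocalRing
open CategoryTheory Abelian RingTheory.Sequence

/-- Polynomials in infinitely many variables. -/
abbrev AA : Type := MvPolynomial ℕ ℚ

/-- The ideal generated by the variables. -/
noncomputable def PP : Ideal AA := RingHom.ker (MvPolynomial.constantCoeff : AA →+* ℚ)

instance : PP.IsPrime := RingHom.ker_isPrime _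

/-- The local ring at the origin. -/
abbrev BB : Type := Localization.AtPrime PP

instance : IsDomain BB :=
  IsLocalization.isDomain_localization PP.primeCompl_le_nonZeroDivisors

theorem ofList_eq (n : ℕ) :
    Ideal.ofList ((List.range n).map (MvPolynomial.X : ℕ → AA)) =
      Ideal.span (MvPolynomial.X '' {i : ℕ | i < n}) := by
  unfold Ideal.ofList
  congr 1
  ext p
  simp

theorem reg_AA : Reg (MvPolynomial.X : ℕ → AA) := by
  intro n
  refine ⟨fun i hi => ?_⟩
  have hi' : i < n := by simpa using hi
  have e1 : ((List.range n).map (MvPolynomial.X : ℕ → AA))[i] = MvPolynomial.X i := by simp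
  have e2 : List.take i ((List.range n).map (MvPolynomial.X : ℕ → AA)) =
      (List.range i).map MvPolynomial.X := by
    rw [← List.map_take, List.take_range, min_eq_left hi'.le]
  rw [e1, e2, ofList_eq, smul_eq_mul, Ideal.mul_top]
  intro a b hab
  obtain ⟨p, rfl⟩ := Submodule.Quotient.mk_surjective _ a
  obtain ⟨q, rfl⟩ := Submodule.Quotient.mk_surjective _ b
  have h1 : (MvPolynomial.X i : AA) * (p - q) ∈
      Ideal.span ((MvPolynomial.X : ℕ → AA) '' {j : ℕ | j < i}) := by
    rw [mul_sub]
    exact (Submodule.Quotient.eq _).1 hab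
  refine (Submodule.Quotient.eq _).2 ?_
  rw [MvPolynomial.mem_ideal_span_X_image] at h1 ⊢
  intro m hm
  obtain ⟨j, hj, hj2⟩ := h1 (Finsupp.single i 1 + m) (by
    rw [MvPolynomial.mem_support_iff, MvPolynomial.coeff_X_mul]
    exact MvPolynomial.mem_support_iff.1 hm)
  refine ⟨j, hj, ?_⟩
  have hne : i ≠ j := fun h => by
    subst h
    exact lt_irrefl i hj
  simpa [Finsupp.single_apply, hne] using hj2

/-- The sequence of the variables in the local ring. -/
noncomputable def xx (i : ℕ) : BB := algebraMap AA BB (MvPolynomial.X i)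

theorem reg_BB : Reg xx := by
  intro n
  have := (reg_AA n).of_isLocalization BB PP.primeCompl
  rw [List.map_map] at this
  exact this

theorem xx_mem (i : ℕ) : xx i ∈ maximalIdeal BB := by
  rw [xx, IsLocalization.AtPrime.to_map_mem_maximal_iff BB PP]
  simp [PP, RingHom.mem_ker]

theorem xx_ne (i : ℕ) : xx i ≠ 0 := by
  intro h
  have := IsLocalization.injective BB PP.primeCompl_le_nonZeroDivisors
    (h.trans (map_zero (algebraMap AA BB)).symm)
  exact MvPolynomial.X_ne_zero i this

end Pool.Agent.KS6_43.FP
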