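import Pool.Agent.KS6_43.FP.Ext

/-!
# The ideals generated by a regular sequence
-/

set_option autoImplicit false

universe u

namespace Pool.Agent.KS6_43.FP

open Pool.Agent.Results.MP_682377_al.WeakRingsOfLargeFPD Function IsLocalRing
open CategoryTheory Abelian RingTheory.Sequence TensorProduct

variable {B : Type u} [CommRing B]

/-- The ideal `(x_0, …, x_{n-1})`. -/
def I (x : ℕ → B) (n : ℕ) : Ideal B := Ideal.ofList ((List.range n).map x)

theorem I_succ (x : ℕ → B) (n : ℕ) : I x (n + 1) = I x n ⊔ Ideal.span {x n} := by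
  rw [I, I, List.range_succ, List.map_append, Ideal.ofList_append, List.map_singleton,
    Ideal.ofList_singleton]

theorem mem_I_succ (x : ℕ → B) (n : ℕ) (b : B) :
    b ∈ I x (n + 1) ↔ ∃ u ∈ I x n, ∃ c, u + x n * c = b := by
  rw [I_succ, Submodule.mem_sup]
  constructor
  · rintro ⟨u, hu, v, hv, h⟩
    obtain ⟨c, hc⟩ := Ideal.mem_span_singleton'.1 hv
    exact ⟨u, hu, c, by rw [mul_comm, hc, h]⟩
  · rintro ⟨u, hu, c, h⟩
    exact ⟨u, hu, x n * c, Ideal.mem_span_singleton'.2 ⟨c, mul_comm _ _⟩, h⟩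

/-- `x` is a regular sequence. -/
def Reg (x : ℕ → B) : Prop := ∀ n, IsWeaklyRegular B ((List.range n).map x)

theorem reg_mod {x : ℕ → B} (hx : Reg x) (n : ℕ) (b : B) (hb : x n * b ∈ I x n) : b ∈ I x n := by
  have h1 := (hx (n + 1)).regular_mod_prev n (by simp)
  have e1 : ((List.range (n + 1)).map x)[n]'(by simp) = x n := by simp
  have e2 : List.take n ((List.range (n + 1)).map x) = (List.range n).map x := by
    rw [List.range_succ, List.map_append, List.take_left' (by simp)]
  rw [e1, e2] at h1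
  have h2 : Ideal.ofList ((List.range n).map x) • (⊤ : Submodule B B) = I x n := by
    rw [smul_eq_mul, Ideal.mul_top]
    rfl
  rw [h2] at h1
  have h3 : x n • (Submodule.Quotient.mk b : B ⧸ I x n) = x n • 0 := by
    rw [smul_zero, ← Submodule.Quotient.mk_smul, Submodule.Quotient.mk_eq_zero]
    exact hb
  exact (Submodule.Quotient.mk_eq_zero _).1 (h1 h3)

theorem fr_I {x : ℕ → B} (hx : Reg x) : ∀ n : ℕ, ∃ m, HasFiniteRes B m (I x n) := by
  intro n
  induction n with
  | zero =>
    have : Subsingleton (I x 0) := by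
      have : I x 0 = ⊥ := by simp [I]
      rw [this]
      infer_instance
    exact ⟨0, inferInstance, inferInstance⟩
  | succ n ih =>
    obtain ⟨m, hm⟩ := ih
    have hle : I x n ≤ I x (n + 1) := by rw [I_succ]; exact le_sup_left
    let ι : I x n →ₗ[B] (I x n) × B :=
      (x n • LinearMap.id).prod (-(I x n).subtype)
    let π : (I x n) × B →ₗ[B] I x (n + 1) :=
      ((I x n).subtype.coprod (x n • LinearMap.id)).codRestrict (I x (n + 1)) (fun z => by
        rw [mem_I_succ]
        exact ⟨z.1, z.1.2, z.2, by simp⟩)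
    have hπ : ∀ z, ((π z : I x (n + 1)) : B) = z.1 + x n * z.2 := fun z => by simp [π]
    have hι1 : ∀ u : I x n, (((ι u).1 : I x n) : B) = x n * u := fun u => by simp [ι]
    have hι2 : ∀ u : I x n, (ι u).2 = -(u : B) := fun u => by simp [ι]
    refine ⟨m + 1, fr_cone ι π ?_ ?_ ?_ hm (fr_prod hm (fr_le (Nat.zero_le m) fr_self))⟩
    · intro u v huv
      have := congrArg Prod.snd huv
      rw [hι2, hι2, neg_inj] at this
      exact Subtype.ext this
    · intro z
      constructor
      · intro h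
        have h1 : (z.1 : B) + x n * z.2 = 0 := by
          rw [← hπ, h]
          rfl
        have h2 : x n * z.2 = -(z.1 : B) := by linear_combination h1
        have h3 : z.2 ∈ I x n := reg_mod hx n _ (by rw [h2]; exact neg_mem z.1.2)
        refine ⟨⟨-z.2, neg_mem h3⟩, Prod.ext (Subtype.ext ?_) ?_⟩
        · rw [hι1]
          linear_combination -h2
        · rw [hι2]
          simp
      · rintro ⟨u, rfl⟩
        apply Subtype.ext
        rw [hπ, hι1, hι2]
        simp
    · rintro ⟨b, hb⟩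
      obtain ⟨u, hu, c, h⟩ := (mem_I_succ x n b).1 hb
      exact ⟨(⟨u, hu⟩, c), Subtype.ext (by rw [hπ]; exact h)⟩

variable [IsLocalRing B]

theorem ext_quot {x : ℕ → B} (hx : Reg x) (hm : ∀ i, x i ∈ maximalIdeal B) (n : ℕ) :
    Nontrivial (Ext (ModuleCat.of B (B ⧸ I x n)) (kk B) n) := by
  have h0 : Nontrivial (Ext (ModuleCat.of B B) (kk B) 0) := by
    refine (Ext.homEquiv₀ (X := ModuleCat.of B B) (Y := kk B)).nontrivial_congr.2 ?_
    refine ⟨ModuleCat.ofHom (Algebra.linearMap B (ResidueField B)), 0, fun h => ?_⟩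
    have := congrArg (fun f : ModuleCat.of B B ⟶ kk B => f.hom (1 : B)) h
    simp at this
  have h1 := ext_list ((List.range n).map x) (ModuleCat.of B B) (hx n) (by
    intro r hr
    obtain ⟨i, -, rfl⟩ := List.mem_map.1 hr
    exact hm i) 0 h0
  have h2 : Ideal.ofList ((List.range n).map x) • (⊤ : Submodule B B) = I x n := by
    rw [smul_eq_mul, Ideal.mul_top]
    rfl
  rw [List.length_map, List.length_range, zero_add] at h1
  have h3 : Nontrivial (Ext (ModuleCat.of B (B ⧸ Ideal.ofList ((List.range n).map x) •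
    (⊤ : Submodule B B))) (kk B) n) := h1
  rwa [h2] at h3

theorem not_pd_quot {x : ℕ → B} (hx : Reg x) (hm : ∀ i, x i ∈ maximalIdeal B) (n : ℕ) :
    ¬ HasProjectiveDimensionLT (ModuleCat.of B (B ⧸ I x n)) n := by
  intro h
  have := HasProjectiveDimensionLT.subsingleton (ModuleCat.of B (B ⧸ I x n)) n n le_rfl (kk B)
  exact not_subsingleton_iff_nontrivial.2 (ext_quot hx hm n) this

theorem not_pd_I {x : ℕ → B} (hx : Reg x) (hm : ∀ i, x i ∈ maximalIdeal B) (n : ℕ) :
    ¬ HasProjectiveDimensionLT (ModuleCat.of B (I x (n + 2))) (n + 1) := by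
  intro h
  refine not_pd_quot hx hm (n + 2) ?_
  refine (step (I x (n + 2)).mkQ (Submodule.mkQ_surjective _) n).2 ?_
  refine pd_equiv ?_ (n + 1) h
  exact LinearEquiv.ofEq _ _ (Submodule.ker_mkQ _).symm

variable [IsDomain B]

theorem fpd_top {x : ℕ → B} (hx : Reg x) (hm : ∀ i, x i ∈ maximalIdeal B) :
    smallFPD (RR B) = ⊤ := by
  rw [eq_top_iff]
  have key : ∀ n : ℕ, ((n + 1 : ℕ) : WithBot ℕ∞) ≤ smallFPD (RR B) := by
    intro n
    obtain ⟨m, h1⟩ := fr_I hx (n + 2)
    have tf : TF B (I x (n + 2)) := tf_sub (fun a ha b hb => by simpa [ha] using hb) _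
    have h2 := fr_baseChange m _ tf h1
    have h3 : ¬ HasProjectiveDimensionLT
        (ModuleCat.of (RR B) ((RR B) ⊗[B] (I x (n + 2)))) (n + 1) := fun h =>
      not_pd_I hx hm n (pd_baseChange n _ tf h)
    have h4 : ((n + 1 : ℕ) : WithBot ℕ∞) ≤
        projectiveDimension (ModuleCat.of (RR B) ((RR B) ⊗[B] (I x (n + 2)))) := by
      by_contra h
      exact h3 (projectiveDimension_lt_iff.1 (not_le.1 h))
    exact h4.trans (le_iSup₂_of_le (ModuleCat.of (RR B) ((RR B) ⊗[B] (I x (n + 2)))) ⟨m, h2⟩ le_rfl)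
  have h5 : ∀ a : WithBot ℕ∞, (∀ n : ℕ, ((n + 1 : ℕ) : WithBot ℕ∞) ≤ a) → ⊤ ≤ a := by
    intro a ha
    induction a with
    | bot => exact absurd (ha 0) (by simp)
    | coe a =>
      induction a with
      | top => exact le_rfl
      | coe k =>
        have := ha k
        norm_cast at this
        omega
  exact h5 _ key

end Pool.Agent.KS6_43.FP
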