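import Pool.Agent.KS6_43.FP.Res

/-!
# The functor `N ↦ (B ⋉ E) ⊗ N` on torsion-free `B`-modules

For `E = ⨁ B/(a)` this functor preserves the exactness of `0 → N' → N` when the cokernel is
torsion-free.
-/

set_option autoImplicit false

universe u

namespace Pool.Agent.KS6_43.FP

open Pool.Agent.Results.MP_682377_al.WeakRingsOfLargeFPD Function TensorProduct IsLocalRing

variable {B : Type u} [CommRing B]

/-- `f ⊗ B/(a)` is injective if `a` is a nonzerodivisor modulo the range of the injective map `f`. -/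
theorem inj_quot {N' N : Type u} [AddCommGroup N'] [Module B N'] [AddCommGroup N] [Module B N]
    (f : N' →ₗ[B] N) (hf : Injective f) (a : B)
    (ha : ∀ n, a • n ∈ LinearMap.range f → n ∈ LinearMap.range f) :
    Injective (LinearMap.lTensor (B ⧸ (Ideal.span {a} : Ideal B)) f) := by
  refine (injective_iff_map_eq_zero _).2 fun t ht => ?_
  obtain ⟨n, hn⟩ := (quotTensorEquivQuotSMul N' (Ideal.span {a} : Ideal B)).symm.surjective t
  obtain ⟨m, rfl⟩ := Submodule.mkQ_surjective _ n
  have e1 : t = (1 : B ⧸ (Ideal.span {a} : Ideal B)) ⊗ₜ[B] m := by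
    rw [← hn]
    rfl
  rw [e1, LinearMap.lTensor_tmul] at ht
  have e2 := congrArg (quotTensorEquivQuotSMul N (Ideal.span {a} : Ideal B)) ht
  rw [map_zero] at e2
  have e3 : (quotTensorEquivQuotSMul N (Ideal.span {a} : Ideal B))
      ((1 : B ⧸ (Ideal.span {a} : Ideal B)) ⊗ₜ[B] f m) = Submodule.Quotient.mk (f m) := by
    have := quotTensorEquivQuotSMul_mk_tmul (Ideal.span {a} : Ideal B) (1 : B) (f m)
    simpa using this
  rw [e3, Submodule.Quotient.mk_eq_zero, Submodule.ideal_span_singleton_smul,
    Submodule.mem_smul_pointwise_iff_exists] at e2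
  obtain ⟨n, -, hn2⟩ := e2
  obtain ⟨n', hn'⟩ := ha n ⟨m, hn2.symm⟩
  have : m = a • n' := hf (by rw [map_smul, hn', hn2])
  rw [e1, this, ← TensorProduct.smul_tmul]
  have : a • (1 : B ⧸ (Ideal.span {a} : Ideal B)) = 0 := by
    rw [Algebra.smul_def, mul_one]
    exact Ideal.Quotient.eq_zero_iff_mem.2 (Ideal.mem_span_singleton_self a)
  rw [this, TensorProduct.zero_tmul]

section ring

variable [IsLocalRing B]

/-- `f ⊗ ⨁ B/(a)` is injective. -/
theorem inj_EE {N' N : Type u} [AddCommGroup N'] [Module B N'] [AddCommGroup N] [Module B N]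
    (f : N' →ₗ[B] N) (hf : Injective f)
    (ha : ∀ a : B, a ≠ 0 → ∀ n, a • n ∈ LinearMap.range f → n ∈ LinearMap.range f) :
    Injective (LinearMap.lTensor (EE B) f) := by
  classical
  refine (injective_iff_map_eq_zero _).2 fun t ht => ?_
  apply (directSumLeft B B (fun i : Idx B => B ⧸ (Ideal.span {(i.1 : B)} : Ideal B)) N').injective
  rw [map_zero]
  refine DFinsupp.ext fun i => ?_
  have hcomm : ∀ t : (EE B) ⊗[B] N',
      (directSumLeft B B (fun i : Idx B => B ⧸ (Ideal.span {(i.1 : B)} : Ideal B)) N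
        (LinearMap.lTensor (EE B) f t)) i =
      LinearMap.lTensor (B ⧸ (Ideal.span {(i.1 : B)} : Ideal B)) f
        ((directSumLeft B B (fun i : Idx B => B ⧸ (Ideal.span {(i.1 : B)} : Ideal B)) N' t) i) := by
    intro t
    induction t with
    | zero => simp
    | tmul m n => rw [LinearMap.lTensor_tmul, directSumLeft_tmul, directSumLeft_tmul,
        LinearMap.lTensor_tmul]
    | add x y hx hy => simp only [map_add, DirectSum.add_apply, hx, hy]
  have h := hcomm t
  rw [ht, map_zero, DirectSum.zero_apply] at h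
  have := inj_quot f hf (i.1 : B) (ha _ i.1.2.1)
  refine this ?_
  rw [← h]
  exact (map_zero (LinearMap.lTensor (B ⧸ (Ideal.span {(i.1 : B)} : Ideal B)) f)).symm

/-- `B ⋉ E` as a `B`-module. -/
def prodEquiv : RR B ≃ₗ[B] B × EE B where
  toFun x := (x.fst, x.snd)
  invFun x := (x.1, x.2)
  left_inv _ := rfl
  right_inv _ := rfl
  map_add' _ _ := rfl
  map_smul' _ _ := rfl

/-- The functor `(B ⋉ E) ⊗ ·` preserves the injectivity of `f`. -/
theorem inj_RR {N' N : Type u} [AddCommGroup N'] [Module B N'] [AddCommGroup N] [Module B N]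
    (f : N' →ₗ[B] N) (hf : Injective f)
    (ha : ∀ a : B, a ≠ 0 → ∀ n, a • n ∈ LinearMap.range f → n ∈ LinearMap.range f) :
    Injective (LinearMap.lTensor (RR B) f) := by
  refine (injective_iff_map_eq_zero _).2 fun t ht => ?_
  have hcomm : ∀ t : (RR B) ⊗[B] N',
      (prodLeft B B B (EE B) N (LinearMap.rTensor N (prodEquiv (B := B)).toLinearMap
        (LinearMap.lTensor (RR B) f t))) =
      ((LinearMap.lTensor B f).prodMap (LinearMap.lTensor (EE B) f))
        (prodLeft B B B (EE B) N' (LinearMap.rTensor N' (prodEquiv (B := B)).toLinearMap t)) := by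
    intro t
    induction t with
    | zero => simp only [map_zero]
    | tmul m n =>
      have e : ∀ m : RR B, (prodEquiv (B := B)).toLinearMap m = (m.fst, m.snd) := fun _ => rfl
      rw [LinearMap.lTensor_tmul, LinearMap.rTensor_tmul, LinearMap.rTensor_tmul, e,
        prodLeft_tmul, prodLeft_tmul, LinearMap.prodMap_apply, LinearMap.lTensor_tmul,
        LinearMap.lTensor_tmul]
    | add x y hx hy => simp only [map_add, hx, hy]
  have h := hcomm t
  rw [ht, map_zero, map_zero] at h
  have h1 : Injective (LinearMap.lTensor B f) :=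
    Module.Flat.lTensor_preserves_injective_linearMap f hf
  have h2 := inj_EE f hf ha
  have h3 : prodLeft B B B (EE B) N' (LinearMap.rTensor N' (prodEquiv (B := B)).toLinearMap t) = 0 :=
    Prod.ext (h1 (by rw [Prod.fst_zero, map_zero]; exact (congrArg Prod.fst h).symm))
      (h2 (by rw [Prod.snd_zero, map_zero]; exact (congrArg Prod.snd h).symm))
  have h4 : LinearMap.rTensor N' (prodEquiv (B := B)).toLinearMap t = 0 :=
    (prodLeft B B B (EE B) N').injective (by rw [h3, map_zero])
  have h5 : Injective (LinearMap.rTensor N' (prodEquiv (B := B)).toLinearMap) :=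
    (LinearEquiv.rTensor N' (prodEquiv (B := B))).injective
  exact h5 (by rw [h4, map_zero])

end ring

end Pool.Agent.KS6_43.FP
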